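import Mathlib
import Pool.Agent.W126.SplitConv

/-!
Splitting a graph into two parts of linear treewidth, with a smaller constant, and into many parts.

This follows the argument of `Pool.Agent.W126.SplitMain`. New: separations that leave at least one
third (instead of one quarter) on each side, a choice of the set which is to be balanced, splitting
of vertex subsets, and many parts.
-/

set_option autoImplicit false
set_option linter.unusedSectionVars false

namespace Pool.Agent.H362SP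

open SimpleGraph Finset Pool.Agent.W126.Split

variable {V : Type} [Fintype V] [DecidableEq V] {G : SimpleGraph V}

/-! ### Balanced separators -/

/-- the balanced separation, with at least one third on each side -/
lemma sep3 {H U : Finset V} {s : ℕ} (h : Bw G H s) (hU : U ⊆ H) (hs : 4 * s ≤ U.card) :
    ∃ Z G1 G2 : Finset V, Z.card ≤ s ∧ G1 ∪ G2 = H \ Z ∧ Disjoint G1 G2 ∧
      (∀ u ∈ G1, ∀ v ∈ G2, ¬ G.Adj u v) ∧ U.card ≤ 3 * (U ∩ G1).card + s ∧
      U.card ≤ 3 * (U ∩ G2).card + s := by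
  classical
  obtain ⟨Z, hZH, hZs, hZ⟩ := exists_center (U := U) h
  set T := (U ∩ (H \ Z)).card with hT
  have hTU : U.card ≤ T + s := by
    have h1 : U ⊆ (U ∩ (H \ Z)) ∪ Z := by
      intro x hx
      have := hU hx
      simp only [mem_union, mem_inter, mem_sdiff]
      tauto
    have h2 := card_le_card h1
    have h3 := card_union_le (U ∩ (H \ Z)) Z
    omega
  -- the closed sets of weight at most two thirds
  let C : Finset (Finset V) := (H \ Z).powerset.filter
    (fun L => Closed G (H \ Z) L ∧ 3 * (L ∩ U).card ≤ 2 * T)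
  have hC : ∀ L, L ∈ C ↔ Closed G (H \ Z) L ∧ 3 * (L ∩ U).card ≤ 2 * T := by
    intro L
    simp only [C, mem_filter, mem_powerset]
    exact ⟨fun h => h.2, fun h => ⟨h.1.1, h⟩⟩
  have hne : C.Nonempty := ⟨∅, (hC _).2 ⟨closed_empty _, by simp⟩⟩
  obtain ⟨L, hLC, hmax⟩ := exists_max_image C (fun L => (L ∩ U).card) hne
  obtain ⟨hL, hL2⟩ := (hC _).1 hLC
  have hsum : (U ∩ L).card + (U ∩ ((H \ Z) \ L)).card = T := by
    rw [hT, ← card_union_of_disjoint]
    · congr 1
      ext x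
      have hx0 : x ∈ L → x ∈ H \ Z := fun h => hL.1 h
      simp only [mem_union, mem_inter, mem_sdiff] at hx0 ⊢
      tauto
    · rw [Finset.disjoint_left]
      intro x hx hx'
      simp only [mem_inter, mem_sdiff] at hx hx'
      exact hx'.2.2 hx.2
  have hLU : (L ∩ U).card = (U ∩ L).card := by rw [inter_comm]
  have key : T ≤ 3 * (U ∩ L).card := by
    by_contra hlt
    push Not at hlt
    have hpos : 0 < (U ∩ ((H \ Z) \ L)).card := by omega
    obtain ⟨x, hx⟩ := card_pos.1 hpos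
    rw [mem_inter] at hx
    obtain ⟨hxU, hx⟩ := hx
    have hcl := closed_comp (G := G) (H \ Z) x
    have hxD : x ∈ H \ Z := (mem_sdiff.1 hx).1
    have hself := mem_comp_self (G := G) hxD
    have h1 : 2 * (comp G (H \ Z) x ∩ U).card ≤ U.card := hZ _ hcl.1 (conn_comp _ x)
    have h2 := hmax _ ((hC _).2 ⟨hcl, by omega⟩)
    have hdis : Disjoint L (comp G (H \ Z) x) := by
      have h3 : comp G (H \ Z) x ⊆ (H \ Z) \ L :=
        comp_subset ((closed_self _).sdiff hL) hx
      exact disjoint_of_subset_right h3 disjoint_sdiff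
    have hdis' : Disjoint (L ∩ U) (comp G (H \ Z) x ∩ U) :=
      hdis.mono inter_subset_left inter_subset_left
    have h4 : ((L ∪ comp G (H \ Z) x) ∩ U).card
        = (L ∩ U).card + (comp G (H \ Z) x ∩ U).card := by
      rw [union_inter_distrib_right, card_union_of_disjoint hdis']
    have h5 : 0 < (comp G (H \ Z) x ∩ U).card := card_pos.2 ⟨x, mem_inter.2 ⟨hself, hxU⟩⟩
    have h7 := hmax _ ((hC _).2 ⟨hL.union hcl, by omega⟩)
    omega
  refine ⟨Z, L, (H \ Z) \ L, hZs, union_sdiff_of_subset hL.1, disjoint_sdiff,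
    hL.nonadj sdiff_subset disjoint_sdiff, by omega, by omega⟩

/-- the balanced separation for two sets, balanced for the first one -/
lemma sepU {H U W : Finset V} {s : ℕ} (h : Bw G H s) (hU : U ⊆ H) (hW : W ⊆ H)
    (hs : 4 * s ≤ U.card) :
    ∃ Z G1 G2 : Finset V, Z.card ≤ s ∧ G1 ∪ G2 = H \ Z ∧ Disjoint G1 G2 ∧
      (∀ u ∈ G1, ∀ v ∈ G2, ¬ G.Adj u v) ∧ U.card ≤ 3 * (U ∩ G1).card + s ∧
      W.card ≤ 2 * (W ∩ G2).card + s ∧ W.card ≤ (W ∩ G1).card + (W ∩ G2).card + s := by
  obtain ⟨Z, G1, G2, h1, h2, h3, h4, h5, h6⟩ := sep3 h hU hs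
  have hsum : (W ∩ G1).card + (W ∩ G2).card + s ≥ W.card := by
    have e1 : W ⊆ (W ∩ G1) ∪ (W ∩ G2) ∪ Z := by
      intro x hx
      by_cases hz : x ∈ Z
      · exact mem_union_right _ hz
      · have : x ∈ G1 ∪ G2 := by
          rw [h2]
          exact mem_sdiff.2 ⟨hW hx, hz⟩
        rw [mem_union] at this
        simp only [mem_union, mem_inter]
        tauto
    have e2 := card_le_card e1
    have e3 := card_union_le ((W ∩ G1) ∪ (W ∩ G2)) Z
    have e4 := card_union_le (W ∩ G1) (W ∩ G2)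
    omega
  by_cases hc : W.card ≤ 2 * (W ∩ G2).card + s
  · exact ⟨Z, G1, G2, h1, h2, h3, h4, h5, hc, hsum⟩
  · refine ⟨Z, G2, G1, h1, by rw [union_comm, h2], h3.symm,
      fun u hu v hv huv => h4 v hv u hu huv.symm, h6, by omega, by omega⟩

/-- the balanced separation for two sets, balanced for the second one -/
lemma sepW {H U W : Finset V} {s : ℕ} (h : Bw G H s) (hU : U ⊆ H) (hW : W ⊆ H)
    (hs : 4 * s ≤ W.card) :
    ∃ Z G1 G2 : Finset V, Z.card ≤ s ∧ G1 ∪ G2 = H \ Z ∧ Disjoint G1 G2 ∧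
      (∀ u ∈ G1, ∀ v ∈ G2, ¬ G.Adj u v) ∧ U.card ≤ 2 * (U ∩ G1).card + s ∧
      W.card ≤ 3 * (W ∩ G2).card + s := by
  obtain ⟨Z, G1, G2, h1, h2, h3, h4, h5, h6, -⟩ := sepU h hW hU hs
  exact ⟨Z, G2, G1, h1, by rw [union_comm, h2], h3.symm,
    fun u hu v hv huv => h4 v hv u hu huv.symm, h6, h5⟩

/-! ### Three small pieces -/

/-- if `A` together with each of three pieces of the complement of `C` is small, then `A` has few
vertices -/
lemma three_pieces {s b : ℕ} (hs : 1 ≤ s) (hb : ∀ k, Bw G univ k → b ≤ k)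
    {C P Q R A : Finset V} (hC : C.card ≤ b + s) (hD : Bw G Cᶜ s)
    (hP : Closed G Cᶜ P) (hQ : Closed G Cᶜ Q) (hR : Closed G Cᶜ R)
    (hPQ : Disjoint P Q) (hPR : Disjoint P R) (hQR : Disjoint Q R)
    (hcov : Cᶜ ⊆ P ∪ Q ∪ R) (hA : A ⊆ C)
    (sP : Bw G (A ∪ P) s) (sQ : Bw G (A ∪ Q) s) (sR : Bw G (A ∪ R) s) :
    A.card < 84 * s := by
  by_contra hbig
  push Not at hbig
  obtain ⟨Z1, X1, Y1, z1, u1, d1, n1, a1, b1, t1⟩ := sepU (U := A) (W := A) sP
    (subset_union_left) (subset_union_left) (show 4 * s ≤ A.card by omega)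
  obtain ⟨Z2, X2, Y2, z2, u2, d2, n2, a2, b2⟩ := sepW (U := A ∩ X1) (W := A ∩ Y1) sQ
    (inter_subset_left.trans subset_union_left) (inter_subset_left.trans subset_union_left)
    (by omega)
  obtain ⟨Z3, X3, Y3, z3, u3, d3, n3, a3, b3⟩ : ∃ Z3 X3 Y3 : Finset V, Z3.card ≤ s ∧
      X3 ∪ Y3 = (A ∪ R) \ Z3 ∧ Disjoint X3 Y3 ∧ (∀ u ∈ X3, ∀ v ∈ Y3, ¬ G.Adj u v) ∧
      5 * s < (A ∩ X1 ∩ X2 ∩ X3).card ∧ 5 * s < (A ∩ Y1 ∩ Y2 ∩ Y3).card := by
    by_cases hx : (A ∩ X1).card ≤ 33 * s
    · obtain ⟨Z3, X3, Y3, z3, u3, d3, n3, a3, b3⟩ := sepW (U := A ∩ X1 ∩ X2)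
        (W := A ∩ Y1 ∩ Y2) sR
        ((inter_subset_left.trans inter_subset_left).trans subset_union_left)
        ((inter_subset_left.trans inter_subset_left).trans subset_union_left)
        (by omega)
      exact ⟨Z3, X3, Y3, z3, u3, d3, n3, by omega, by omega⟩
    · obtain ⟨Z3, X3, Y3, z3, u3, d3, n3, a3, b3, -⟩ := sepU (U := A ∩ X1 ∩ X2)
        (W := A ∩ Y1 ∩ Y2) sR
        ((inter_subset_left.trans inter_subset_left).trans subset_union_left)
        ((inter_subset_left.trans inter_subset_left).trans subset_union_left)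
        (by omega)
      exact ⟨Z3, X3, Y3, z3, u3, d3, n3, by omega, by omega⟩
  set U := A ∩ X1 ∩ X2 ∩ X3 with hUdef
  set W := A ∩ Y1 ∩ Y2 ∩ Y3 with hWdef
  have hU : 5 * s < U.card := a3
  have hW : 5 * s < W.card := b3
  -- the pieces
  set M1 := (P ∩ X1) ∪ (Q ∩ X2) ∪ (R ∩ X3) with hM1
  set M2 := (P ∩ Y1) ∪ (Q ∩ Y2) ∪ (R ∩ Y3) with hM2
  have hM1C : M1 ⊆ Cᶜ := by
    intro x hx
    simp only [hM1, mem_union, mem_inter] at hx
    rcases hx with (hx | hx) | hx
    · exact hP.1 hx.1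
    · exact hQ.1 hx.1
    · exact hR.1 hx.1
  have hM2C : M2 ⊆ Cᶜ := by
    intro x hx
    simp only [hM2, mem_union, mem_inter] at hx
    rcases hx with (hx | hx) | hx
    · exact hP.1 hx.1
    · exact hQ.1 hx.1
    · exact hR.1 hx.1
  have hUA : U ⊆ A := by
    intro x hx
    simp only [hUdef, mem_inter] at hx
    exact hx.1.1.1
  have hWA : W ⊆ A := by
    intro x hx
    simp only [hWdef, mem_inter] at hx
    exact hx.1.1.1
  have hAC : ∀ x ∈ A, x ∉ Cᶜ := fun x hx h => (mem_compl.1 h) (hA hx)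
  have b1' : Bw G (M1 ∪ U) (s + U.card) := (hD.mono hM1C le_rfl).add U
  have b2' : Bw G (M2 ∪ W) (s + W.card) := (hD.mono hM2C le_rfl).add W
  have hdis : Disjoint (M1 ∪ U) (M2 ∪ W) := by
    rw [Finset.disjoint_left]
    intro x hx hx'
    have hP' := fun h : x ∈ P => hAC x
    rw [Finset.disjoint_left] at hPQ hPR hQR d1 d2 d3
    rcases mem_union.1 hx with h | h <;> rcases mem_union.1 hx' with h' | h'
    · simp only [hM1, hM2, mem_union, mem_inter] at h h'
      rcases h with (h | h) | h <;> rcases h' with (h' | h') | h'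
      · exact d1 h.2 h'.2
      · exact hPQ h.1 h'.1
      · exact hPR h.1 h'.1
      · exact hPQ h'.1 h.1
      · exact d2 h.2 h'.2
      · exact hQR h.1 h'.1
      · exact hPR h'.1 h.1
      · exact hQR h'.1 h.1
      · exact d3 h.2 h'.2
    · exact hAC x (hWA h') (hM1C h)
    · exact hAC x (hUA h) (hM2C h')
    · simp only [hUdef, hWdef, mem_inter] at h h'
      exact d1 h.1.1.2 h'.1.1.2
  have hnon : ∀ u ∈ M1 ∪ U, ∀ v ∈ M2 ∪ W, ¬ G.Adj u v := by
    intro u hu v hv
    rcases mem_union.1 hu with h | h <;> rcases mem_union.1 hv with h' | h'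
    · have hu2 := hM2C h'
      have hu1 := hM1C h
      simp only [hM1, hM2, mem_union, mem_inter] at h h'
      rcases h with (h | h) | h <;> rcases h' with (h' | h') | h'
      · exact n1 u h.2 v h'.2
      · exact hP.nonadj hQ.1 hPQ u h.1 v h'.1
      · exact hP.nonadj hR.1 hPR u h.1 v h'.1
      · exact hQ.nonadj hP.1 hPQ.symm u h.1 v h'.1
      · exact n2 u h.2 v h'.2
      · exact hQ.nonadj hR.1 hQR u h.1 v h'.1
      · exact hR.nonadj hP.1 hPR.symm u h.1 v h'.1
      · exact hR.nonadj hQ.1 hQR.symm u h.1 v h'.1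
      · exact n3 u h.2 v h'.2
    · simp only [hWdef, mem_inter] at h'
      simp only [hM1, mem_union, mem_inter] at h
      rcases h with (h | h) | h
      · exact n1 u h.2 v h'.1.1.2
      · exact n2 u h.2 v h'.1.2
      · exact n3 u h.2 v h'.2
    · simp only [hUdef, mem_inter] at h
      simp only [hM2, mem_union, mem_inter] at h'
      rcases h' with (h' | h') | h'
      · exact n1 u h.1.1.2 v h'.2
      · exact n2 u h.1.2 v h'.2
      · exact n3 u h.2 v h'.2
    · simp only [hUdef, hWdef, mem_inter] at h h'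
      exact n1 u h.1.1.2 v h'.1.1.2
  have e1 := (b1'.mono Subset.rfl (show s + U.card ≤ s + max U.card W.card by omega)).union
    (b2'.mono Subset.rfl (show s + W.card ≤ s + max U.card W.card by omega)) hdis hnon
  have e2 := e1.add ((C ∪ Z1 ∪ Z2 ∪ Z3) \ (U ∪ W))
  have hc : ∀ x, x ∉ C → x ∈ P ∨ x ∈ Q ∨ x ∈ R := by
    intro x hx
    have := hcov (mem_compl.2 hx)
    simpa [or_assoc] using this
  have e3 : (univ : Finset V) ⊆ (M1 ∪ U ∪ (M2 ∪ W)) ∪ ((C ∪ Z1 ∪ Z2 ∪ Z3) \ (U ∪ W)) := by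
    intro x _
    by_cases hx : x ∈ C ∪ Z1 ∪ Z2 ∪ Z3
    · by_cases hx' : x ∈ U ∪ W
      · rcases mem_union.1 hx' with h | h
        · exact mem_union_left _ (mem_union_left _ (mem_union_right _ h))
        · exact mem_union_left _ (mem_union_right _ (mem_union_right _ h))
      · exact mem_union_right _ (mem_sdiff.2 ⟨hx, hx'⟩)
    · simp only [mem_union, not_or] at hx
      obtain ⟨⟨⟨hxC, hx1⟩, hx2⟩, hx3⟩ := hx
      apply mem_union_left
      rcases hc x hxC with h | h | h
      · have h1 : x ∈ X1 ∪ Y1 := by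
          rw [u1]; exact mem_sdiff.2 ⟨mem_union_right _ h, hx1⟩
        rcases mem_union.1 h1 with h1 | h1
        · exact mem_union_left _ (mem_union_left _ (by
            simp only [hM1, mem_union, mem_inter]; exact Or.inl (Or.inl ⟨h, h1⟩)))
        · exact mem_union_right _ (mem_union_left _ (by
            simp only [hM2, mem_union, mem_inter]; exact Or.inl (Or.inl ⟨h, h1⟩)))
      · have h1 : x ∈ X2 ∪ Y2 := by
          rw [u2]; exact mem_sdiff.2 ⟨mem_union_right _ h, hx2⟩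
        rcases mem_union.1 h1 with h1 | h1
        · exact mem_union_left _ (mem_union_left _ (by
            simp only [hM1, mem_union, mem_inter]; exact Or.inl (Or.inr ⟨h, h1⟩)))
        · exact mem_union_right _ (mem_union_left _ (by
            simp only [hM2, mem_union, mem_inter]; exact Or.inl (Or.inr ⟨h, h1⟩)))
      · have h1 : x ∈ X3 ∪ Y3 := by
          rw [u3]; exact mem_sdiff.2 ⟨mem_union_right _ h, hx3⟩
        rcases mem_union.1 h1 with h1 | h1
        · exact mem_union_left _ (mem_union_left _ (by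
            simp only [hM1, mem_union, mem_inter]; exact Or.inr ⟨h, h1⟩))
        · exact mem_union_right _ (mem_union_left _ (by
            simp only [hM2, mem_union, mem_inter]; exact Or.inr ⟨h, h1⟩))
  have e4 := hb _ (e2.mono e3 le_rfl)
  have hUW : Disjoint U W := by
    rw [Finset.disjoint_left] at d1 ⊢
    intro x h h'
    simp only [hUdef, hWdef, mem_inter] at h h'
    exact d1 h.1.1.2 h'.1.1.2
  have hsub : U ∪ W ⊆ C ∪ Z1 ∪ Z2 ∪ Z3 := by
    refine (union_subset hUA hWA).trans (hA.trans ?_)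
    intro x hx
    simp only [mem_union]
    tauto
  have e5 : ((C ∪ Z1 ∪ Z2 ∪ Z3) \ (U ∪ W)).card + (U.card + W.card) =
      (C ∪ Z1 ∪ Z2 ∪ Z3).card := by
    rw [← card_union_of_disjoint hUW]
    exact card_sdiff_add_card_eq_card hsub
  have e6 : (C ∪ Z1 ∪ Z2 ∪ Z3).card ≤ C.card + Z1.card + Z2.card + Z3.card := by
    have f1 := card_union_le (C ∪ Z1 ∪ Z2) Z3
    have f2 := card_union_le (C ∪ Z1) Z2
    have f3 := card_union_le C Z1
    omega
  rcases Nat.le_total U.card W.card with hle | hle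
  · rw [max_eq_right hle] at e4
    omega
  · rw [max_eq_left hle] at e4
    omega

/-- the same for two pieces -/
lemma two_pieces {s b : ℕ} (hs : 1 ≤ s) (hb : ∀ k, Bw G univ k → b ≤ k)
    {C P Q A : Finset V} (hC : C.card ≤ b + s) (hD : Bw G Cᶜ s)
    (hP : Closed G Cᶜ P) (hQ : Closed G Cᶜ Q)
    (hPQ : Disjoint P Q) (hcov : Cᶜ ⊆ P ∪ Q) (hA : A ⊆ C)
    (sP : Bw G (A ∪ P) s) (sQ : Bw G (A ∪ Q) s) :
    A.card < 29 * s := by
  by_contra hbig
  push Not at hbig
  obtain ⟨Z1, X1, Y1, z1, u1, d1, n1, a1, b1, t1⟩ := sepU (U := A) (W := A) sP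
    (subset_union_left) (subset_union_left) (show 4 * s ≤ A.card by omega)
  obtain ⟨Z2, X2, Y2, z2, u2, d2, n2, a2, b2⟩ : ∃ Z2 X2 Y2 : Finset V, Z2.card ≤ s ∧
      X2 ∪ Y2 = (A ∪ Q) \ Z2 ∧ Disjoint X2 Y2 ∧ (∀ u ∈ X2, ∀ v ∈ Y2, ¬ G.Adj u v) ∧
      4 * s < (A ∩ X1 ∩ X2).card ∧ 4 * s < (A ∩ Y1 ∩ Y2).card := by
    by_cases hx : (A ∩ X1).card ≤ 13 * s
    · obtain ⟨Z2, X2, Y2, z2, u2, d2, n2, a2, b2⟩ := sepW (U := A ∩ X1)
        (W := A ∩ Y1) sQ
        (inter_subset_left.trans subset_union_left) (inter_subset_left.trans subset_union_left)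
        (by omega)
      exact ⟨Z2, X2, Y2, z2, u2, d2, n2, by omega, by omega⟩
    · obtain ⟨Z2, X2, Y2, z2, u2, d2, n2, a2, b2, -⟩ := sepU (U := A ∩ X1)
        (W := A ∩ Y1) sQ
        (inter_subset_left.trans subset_union_left) (inter_subset_left.trans subset_union_left)
        (by omega)
      exact ⟨Z2, X2, Y2, z2, u2, d2, n2, by omega, by omega⟩
  set U := A ∩ X1 ∩ X2 with hUdef
  set W := A ∩ Y1 ∩ Y2 with hWdef
  have hU : 4 * s < U.card := a2
  have hW : 4 * s < W.card := b2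
  -- the pieces
  set M1 := (P ∩ X1) ∪ (Q ∩ X2) with hM1
  set M2 := (P ∩ Y1) ∪ (Q ∩ Y2) with hM2
  have hM1C : M1 ⊆ Cᶜ := by
    intro x hx
    simp only [hM1, mem_union, mem_inter] at hx
    rcases hx with hx | hx
    · exact hP.1 hx.1
    · exact hQ.1 hx.1
  have hM2C : M2 ⊆ Cᶜ := by
    intro x hx
    simp only [hM2, mem_union, mem_inter] at hx
    rcases hx with hx | hx
    · exact hP.1 hx.1
    · exact hQ.1 hx.1
  have hUA : U ⊆ A := by
    intro x hx
    simp only [hUdef, mem_inter] at hx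
    exact hx.1.1
  have hWA : W ⊆ A := by
    intro x hx
    simp only [hWdef, mem_inter] at hx
    exact hx.1.1
  have hAC : ∀ x ∈ A, x ∉ Cᶜ := fun x hx h => (mem_compl.1 h) (hA hx)
  have b1' : Bw G (M1 ∪ U) (s + U.card) := (hD.mono hM1C le_rfl).add U
  have b2' : Bw G (M2 ∪ W) (s + W.card) := (hD.mono hM2C le_rfl).add W
  have hdis : Disjoint (M1 ∪ U) (M2 ∪ W) := by
    rw [Finset.disjoint_left]
    intro x hx hx'
    rw [Finset.disjoint_left] at hPQ d1 d2
    rcases mem_union.1 hx with h | h <;> rcases mem_union.1 hx' with h' | h'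
    · simp only [hM1, hM2, mem_union, mem_inter] at h h'
      rcases h with h | h <;> rcases h' with h' | h'
      · exact d1 h.2 h'.2
      · exact hPQ h.1 h'.1
      · exact hPQ h'.1 h.1
      · exact d2 h.2 h'.2
    · exact hAC x (hWA h') (hM1C h)
    · exact hAC x (hUA h) (hM2C h')
    · simp only [hUdef, hWdef, mem_inter] at h h'
      exact d1 h.1.2 h'.1.2
  have hnon : ∀ u ∈ M1 ∪ U, ∀ v ∈ M2 ∪ W, ¬ G.Adj u v := by
    intro u hu v hv
    rcases mem_union.1 hu with h | h <;> rcases mem_union.1 hv with h' | h'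
    · have hu2 := hM2C h'
      have hu1 := hM1C h
      simp only [hM1, hM2, mem_union, mem_inter] at h h'
      rcases h with h | h <;> rcases h' with h' | h'
      · exact n1 u h.2 v h'.2
      · exact hP.nonadj hQ.1 hPQ u h.1 v h'.1
      · exact hQ.nonadj hP.1 hPQ.symm u h.1 v h'.1
      · exact n2 u h.2 v h'.2
    · simp only [hWdef, mem_inter] at h'
      simp only [hM1, mem_union, mem_inter] at h
      rcases h with h | h
      · exact n1 u h.2 v h'.1.2
      · exact n2 u h.2 v h'.2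
    · simp only [hUdef, mem_inter] at h
      simp only [hM2, mem_union, mem_inter] at h'
      rcases h' with h' | h'
      · exact n1 u h.1.2 v h'.2
      · exact n2 u h.2 v h'.2
    · simp only [hUdef, hWdef, mem_inter] at h h'
      exact n1 u h.1.2 v h'.1.2
  have e1 := (b1'.mono Subset.rfl (show s + U.card ≤ s + max U.card W.card by omega)).union
    (b2'.mono Subset.rfl (show s + W.card ≤ s + max U.card W.card by omega)) hdis hnon
  have e2 := e1.add ((C ∪ Z1 ∪ Z2) \ (U ∪ W))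
  have hc : ∀ x, x ∉ C → x ∈ P ∨ x ∈ Q := by
    intro x hx
    have := hcov (mem_compl.2 hx)
    simpa using this
  have e3 : (univ : Finset V) ⊆ (M1 ∪ U ∪ (M2 ∪ W)) ∪ ((C ∪ Z1 ∪ Z2) \ (U ∪ W)) := by
    intro x _
    by_cases hx : x ∈ C ∪ Z1 ∪ Z2
    · by_cases hx' : x ∈ U ∪ W
      · rcases mem_union.1 hx' with h | h
        · exact mem_union_left _ (mem_union_left _ (mem_union_right _ h))
        · exact mem_union_left _ (mem_union_right _ (mem_union_right _ h))
      · exact mem_union_right _ (mem_sdiff.2 ⟨hx, hx'⟩)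
    · simp only [mem_union, not_or] at hx
      obtain ⟨⟨hxC, hx1⟩, hx2⟩ := hx
      apply mem_union_left
      rcases hc x hxC with h | h
      · have h1 : x ∈ X1 ∪ Y1 := by
          rw [u1]; exact mem_sdiff.2 ⟨mem_union_right _ h, hx1⟩
        rcases mem_union.1 h1 with h1 | h1
        · exact mem_union_left _ (mem_union_left _ (by
            simp only [hM1, mem_union, mem_inter]; exact Or.inl ⟨h, h1⟩))
        · exact mem_union_right _ (mem_union_left _ (by
            simp only [hM2, mem_union, mem_inter]; exact Or.inl ⟨h, h1⟩))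
      · have h1 : x ∈ X2 ∪ Y2 := by
          rw [u2]; exact mem_sdiff.2 ⟨mem_union_right _ h, hx2⟩
        rcases mem_union.1 h1 with h1 | h1
        · exact mem_union_left _ (mem_union_left _ (by
            simp only [hM1, mem_union, mem_inter]; exact Or.inr ⟨h, h1⟩))
        · exact mem_union_right _ (mem_union_left _ (by
            simp only [hM2, mem_union, mem_inter]; exact Or.inr ⟨h, h1⟩))
  have e4 := hb _ (e2.mono e3 le_rfl)
  have hUW : Disjoint U W := by
    rw [Finset.disjoint_left] at d1 ⊢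
    intro x h h'
    simp only [hUdef, hWdef, mem_inter] at h h'
    exact d1 h.1.2 h'.1.2
  have hsub : U ∪ W ⊆ C ∪ Z1 ∪ Z2 := by
    refine (union_subset hUA hWA).trans (hA.trans ?_)
    intro x hx
    simp only [mem_union]
    tauto
  have e5 : ((C ∪ Z1 ∪ Z2) \ (U ∪ W)).card + (U.card + W.card) =
      (C ∪ Z1 ∪ Z2).card := by
    rw [← card_union_of_disjoint hUW]
    exact card_sdiff_add_card_eq_card hsub
  have e6 : (C ∪ Z1 ∪ Z2).card ≤ C.card + Z1.card + Z2.card := by
    have f2 := card_union_le (C ∪ Z1) Z2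
    have f3 := card_union_le C Z1
    omega
  rcases Nat.le_total U.card W.card with hle | hle
  · rw [max_eq_right hle] at e4
    omega
  · rw [max_eq_left hle] at e4
    omega

/-! ### The principal component -/

lemma principal {s b : ℕ} (hs : 1 ≤ s) (hb : ∀ k, Bw G univ k → b ≤ k)
    (hno : ∀ S S' : Finset V, Disjoint S S' → Bw G S s ∨ Bw G S' s)
    {C B A1 A2 : Finset V} (hC : C.card ≤ b) (hD : Bw G Cᶜ s) (hB : B.card ≤ s)
    (h1 : A1 ⊆ C) (h2 : A2 ⊆ C) (h12 : Disjoint A1 A2)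
    (c1 : 29 * s ≤ A1.card) (c2 : 84 * s ≤ A2.card) :
    ∃ K, K ⊆ (C ∪ B)ᶜ ∧ Conn G K ∧ ¬ Bw G (A1 ∪ K) s ∧ ¬ Bw G (A2 ∪ K) s := by
  classical
  set E := C ∪ B with hE
  have hEc : E.card ≤ b + s := (card_union_le _ _).trans (by omega)
  have hDE : Bw G Eᶜ s := hD.mono (compl_subset_compl.2 subset_union_left) le_rfl
  have h1E : A1 ⊆ E := h1.trans subset_union_left
  have h2E : A2 ⊆ E := h2.trans subset_union_left
  -- two pieces
  have two : ∀ A ⊆ E, 29 * s ≤ A.card → ∀ L, Closed G Eᶜ L → Bw G (A ∪ L) s →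
      Bw G (A ∪ (Eᶜ \ L)) s → False := by
    intro A hA hc L hL s1 s2
    have := two_pieces hs hb hEc hDE hL ((closed_self _).sdiff hL)
      disjoint_sdiff (by rw [union_sdiff_of_subset hL.1]) hA s1 s2
    omega
  have dis : ∀ L L' : Finset V, L ⊆ Eᶜ → L' ⊆ Eᶜ → Disjoint L L' →
      Disjoint (A1 ∪ L) (A2 ∪ L') := by
    intro L L' hL hL' hd
    rw [Finset.disjoint_left] at h12 hd ⊢
    intro x hx hx'
    rcases mem_union.1 hx with h | h <;> rcases mem_union.1 hx' with h' | h'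
    · exact h12 h h'
    · exact (mem_compl.1 (hL' h')) (h1E h)
    · exact (mem_compl.1 (hL h)) (h2E h')
    · exact hd h h'
  have full1 : ¬ Bw G (A1 ∪ Eᶜ) s := fun h =>
    two A1 h1E c1 Eᶜ (closed_self _) h (h.mono (union_subset_union Subset.rfl sdiff_subset) le_rfl)
  have full2 : ¬ Bw G (A2 ∪ Eᶜ) s := fun h =>
    two A2 h2E (by omega) Eᶜ (closed_self _) h (h.mono (union_subset_union Subset.rfl sdiff_subset) le_rfl)
  -- a minimal closed set
  let F : Finset (Finset V) := (Eᶜ).powerset.filter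
    (fun L => Closed G Eᶜ L ∧ ¬ Bw G (A1 ∪ L) s)
  have hF : ∀ L, L ∈ F ↔ Closed G Eᶜ L ∧ ¬ Bw G (A1 ∪ L) s := by
    intro L
    simp only [F, mem_filter, mem_powerset]
    exact ⟨fun h => h.2, fun h => ⟨h.1.1, h⟩⟩
  obtain ⟨L, hLF, hmin⟩ := exists_min_image F (fun L => L.card)
    ⟨Eᶜ, (hF _).2 ⟨closed_self _, full1⟩⟩
  obtain ⟨hL, hL2⟩ := (hF _).1 hLF
  have hne : L.Nonempty := by
    rw [nonempty_iff_ne_empty]
    rintro rfl
    rcases hno _ _ (dis ∅ Eᶜ (empty_subset _) Subset.rfl (disjoint_empty_left _)) with h | h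
    · exact hL2 h
    · exact full2 h
  obtain ⟨x, hx⟩ := hne
  have hxE : x ∈ Eᶜ := hL.1 hx
  have hK := closed_comp (G := G) Eᶜ x
  have hKL : comp G Eᶜ x ⊆ L := comp_subset hL hx
  have hL' : Closed G Eᶜ (L \ comp G Eᶜ x) := hL.sdiff hK
  have s1 : Bw G (A1 ∪ (L \ comp G Eᶜ x)) s := by
    by_contra hcon
    have h3 := hmin _ ((hF _).2 ⟨hL', hcon⟩)
    have h4 : (L \ comp G Eᶜ x).card < L.card :=
      card_lt_card (sdiff_ssubset hKL ⟨x, mem_comp_self hxE⟩)
    omega
  have s2 : Bw G (A2 ∪ (Eᶜ \ L)) s := by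
    rcases hno _ _ (dis L (Eᶜ \ L) hL.1 sdiff_subset disjoint_sdiff) with h | h
    · exact absurd h hL2
    · exact h
  have s3 : Bw G (A2 ∪ (L \ comp G Eᶜ x)) s := by
    by_contra hcon
    rcases hno _ _ (dis (Eᶜ \ (L \ comp G Eᶜ x)) (L \ comp G Eᶜ x) sdiff_subset hL'.1
      sdiff_disjoint) with h | h
    · exact two A1 h1E c1 _ hL' s1 h
    · exact hcon h
  have k2 : ¬ Bw G (A2 ∪ comp G Eᶜ x) s := by
    intro s4
    have := three_pieces hs hb hEc hDE hL' hK ((closed_self _).sdiff hL)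
      sdiff_disjoint (disjoint_of_subset_left sdiff_subset disjoint_sdiff)
      (disjoint_of_subset_left hKL disjoint_sdiff)
      (by rw [sdiff_union_of_subset hKL, union_sdiff_of_subset hL.1]) h2E s3 s4 s2
    omega
  refine ⟨comp G Eᶜ x, hK.1, conn_comp _ x, ?_, k2⟩
  intro s5
  rcases hno _ _ (dis (Eᶜ \ comp G Eᶜ x) (comp G Eᶜ x) sdiff_subset hK.1
    sdiff_disjoint) with h | h
  · exact two A1 h1E c1 _ hK s5 h
  · exact k2 h

/-! ### The theorem -/

/-- a graph of treewidth at least `w` splits into two parts of treewidth at least `s`, if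
`w ≥ 114 s` -/
theorem split {s w : ℕ} (hs : 1 ≤ s) (hw : 114 * s ≤ w) (hG : ¬ Bw G univ w) :
    ∃ S : Finset V, ¬ Bw G S s ∧ ¬ Bw G Sᶜ s := by
  classical
  by_contra hcon
  push Not at hcon
  have hno : ∀ S S' : Finset V, Disjoint S S' → Bw G S s ∨ Bw G S' s := by
    intro S S' hd
    by_cases h : Bw G S s
    · exact Or.inl h
    · refine Or.inr ((hcon S h).mono ?_ le_rfl)
      exact subset_compl_comm.1 (subset_compl_iff_disjoint_right.2 hd)
  have hex : ∃ k, Bw G univ k := ⟨_, bw_card univ⟩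
  set b := Nat.find hex with hbdef
  have hbs : Bw G univ b := Nat.find_spec hex
  have hb : ∀ k, Bw G univ k → b ≤ k := fun k hk => Nat.find_min' hex hk
  have hwb : w < b := by
    by_contra hle
    exact hG (hbs.mono Subset.rfl (by omega))
  -- a bag whose complement is small
  obtain ⟨F, hF, hbr⟩ := hbs.bramble
  have hC : ∃ C ∈ F, Bw G Cᶜ s := by
    by_contra hcon2
    push Not at hcon2
    have h1 : ∀ B : Finset V, ∃ K : Finset V, B ∈ F →
        K ⊆ Bᶜ ∧ Conn G K ∧ ¬ Bw G K s := by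
      intro B
      by_cases hB : B ∈ F
      · obtain ⟨K, h1, h2, -, h3⟩ := exists_comp s _ (hcon2 B hB)
        exact ⟨K, fun _ => ⟨h1, h2, h3⟩⟩
      · exact ⟨∅, fun h => absurd h hB⟩
    choose K hK using h1
    obtain ⟨B, hB, B', hB', hd⟩ := hbr K (fun B hB => ⟨by
      rw [← compl_eq_univ_sdiff]; exact (hK B hB).1, (hK B hB).2.1⟩)
    rcases hno _ _ hd with h | h
    · exact (hK B hB).2.2 h
    · exact (hK B' hB').2.2 h
  obtain ⟨C, hCF, hD⟩ := hC
  have hCb : C.card ≤ b := (hF C hCF).2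
  have hCs : b ≤ s + C.card := hb _ ((hD.add C).mono (by
    intro x _
    rw [mem_union, mem_compl]
    tauto) le_rfl)
  obtain ⟨A1, h1, c1⟩ := exists_subset_card_eq (show 29 * s ≤ C.card by omega)
  obtain ⟨A2, h2, c2⟩ := exists_subset_card_eq (show 84 * s ≤ (C \ A1).card by
    rw [card_sdiff_of_subset h1]; omega)
  have h12 : Disjoint A1 A2 := disjoint_of_subset_right h2 disjoint_sdiff
  have h2C : A2 ⊆ C := h2.trans sdiff_subset
  obtain ⟨F', hF', hbr'⟩ := hD.bramble
  have h3 : ∀ B : Finset V, ∃ K : Finset V, B ∈ F' →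
      K ⊆ (C ∪ B)ᶜ ∧ Conn G K ∧ ¬ Bw G (A1 ∪ K) s ∧ ¬ Bw G (A2 ∪ K) s := by
    intro B
    by_cases hB : B ∈ F'
    · obtain ⟨K, hK⟩ := principal hs hb hno hCb hD (hF' B hB).2 h1 h2C h12 c1.ge c2.ge
      exact ⟨K, fun _ => hK⟩
    · exact ⟨∅, fun h => absurd h hB⟩
  choose K hK using h3
  obtain ⟨B, hB, B', hB', hd⟩ := hbr' K (fun B hB => ⟨by
    intro x hx
    have := (hK B hB).1 hx
    rw [mem_compl, mem_union, not_or] at this
    exact mem_sdiff.2 ⟨mem_compl.2 this.1, this.2⟩, (hK B hB).2.1⟩)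
  have hdis : Disjoint (A1 ∪ K B) (A2 ∪ K B') := by
    have e1 := (hK B hB).1
    have e2 := (hK B' hB').1
    rw [Finset.disjoint_left] at h12 hd ⊢
    intro x hx hx'
    rcases mem_union.1 hx with h | h <;> rcases mem_union.1 hx' with h' | h'
    · exact h12 h h'
    · have := e2 h'
      rw [mem_compl, mem_union, not_or] at this
      exact this.1 (h1 h)
    · have := e1 h
      rw [mem_compl, mem_union, not_or] at this
      exact this.1 (h2C h')
    · exact hd h h'
  rcases hno _ _ hdis with h | h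
  · exact (hK B hB).2.2.1 h
  · exact (hK B' hB').2.2.2 h

end Pool.Agent.H362SP
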