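import Mathlib
import Pool.Agent.H362SP.Split

/-!
Splitting vertex subsets, and splitting into many parts.
-/

set_option autoImplicit false
set_option linter.unusedSectionVars false

namespace Pool.Agent.H362SP

open SimpleGraph Finset Pool.Agent.W126.Split

variable {V : Type} [Fintype V] [DecidableEq V] {G : SimpleGraph V}

/-- the graph without the edges that leave `H` or lie outside `H` -/
def restr (G : SimpleGraph V) (H : Finset V) : SimpleGraph V where
  Adj u v := u ∈ H ∧ v ∈ H ∧ G.Adj u v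
  symm := ⟨fun _ _ h => ⟨h.2.1, h.1, h.2.2.symm⟩⟩
  loopless := ⟨fun v h => G.loopless.irrefl v h.2.2⟩

lemma of_restr {H S : Finset V} {k : ℕ} (h : Bw (restr G H) S k) (hS : S ⊆ H) : Bw G S k := by
  obtain ⟨ι, hι, T, bag, h1, h2, h3, h4, h5, h6⟩ := h
  exact ⟨ι, hι, T, bag, h1, h2, h3, fun u hu v hv huv => h4 u hu v hv ⟨hS hu, hS hv, huv⟩, h5, h6⟩

lemma to_restr {H S : Finset V} {k : ℕ} (h : Bw G S k) : Bw (restr G H) S k := by
  obtain ⟨ι, hι, T, bag, h1, h2, h3, h4, h5, h6⟩ := h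
  exact ⟨ι, hι, T, bag, h1, h2, h3, fun u hu v hv huv => h4 u hu v hv huv.2.2, h5, h6⟩

/-- an independent set has a decomposition with bags of one vertex -/
lemma bw_indep (S : Finset V) (h : ∀ u ∈ S, ∀ v ∈ S, ¬ G.Adj u v) : Bw G S 1 := by
  induction S using Finset.induction with
  | empty => exact (bw_card ∅).mono Subset.rfl (by simp)
  | insert a S ha ih =>
    have h1 : Bw G {a} 1 := (bw_card {a}).mono Subset.rfl (by simp)
    have h2 := ih (fun u hu v hv => h u (mem_insert_of_mem hu) v (mem_insert_of_mem hv))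
    have h3 := h1.union h2 (Finset.disjoint_singleton_left.2 ha) (fun u hu v hv =>
      h u (by rw [mem_singleton.1 hu]; exact mem_insert_self a S) v (mem_insert_of_mem hv))
    rwa [insert_eq]

/-- splitting a vertex subset -/
theorem split_in {H : Finset V} {s w : ℕ} (hs : 1 ≤ s) (hw : 114 * s ≤ w) (hG : ¬ Bw G H w) :
    ∃ S S', S ⊆ H ∧ S' ⊆ H ∧ Disjoint S S' ∧ ¬ Bw G S s ∧ ¬ Bw G S' s := by
  have h0 : ¬ Bw (restr G H) univ w := fun h =>
    hG (of_restr (h.mono (subset_univ H) le_rfl) Subset.rfl)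
  obtain ⟨S, h1, h2⟩ := split hs hw h0
  have key : ∀ T : Finset V, ¬ Bw (restr G H) T s → ¬ Bw G (T ∩ H) s := by
    intro T hT h
    apply hT
    have e1 : Bw (restr G H) (T ∩ H) s := to_restr h
    have e2 : Bw (restr G H) (T \ H) 1 := bw_indep _ (fun u hu v _ huv =>
      (mem_sdiff.1 hu).2 huv.1)
    have e3 := e1.union (e2.mono Subset.rfl hs)
      (by
        rw [Finset.disjoint_left]
        intro x hx hx'
        exact (mem_sdiff.1 hx').2 (mem_inter.1 hx).2)
      (fun u _ v hv huv => (mem_sdiff.1 hv).2 huv.2.1)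
    rwa [union_comm, sdiff_union_inter] at e3
  exact ⟨S ∩ H, Sᶜ ∩ H, inter_subset_right, inter_subset_right,
    disjoint_compl_right.mono inter_subset_left inter_subset_left, key _ h1, key _ h2⟩

/-- splitting into `2 ^ m` parts -/
theorem split_pow (m : ℕ) : ∀ {H : Finset V} {s w : ℕ}, 1 ≤ s → 114 ^ m * s ≤ w → ¬ Bw G H w →
    ∃ S : (Fin m → Bool) → Finset V, (∀ i, S i ⊆ H) ∧ (∀ i j, i ≠ j → Disjoint (S i) (S j)) ∧
      ∀ i, ¬ Bw G (S i) s := by
  induction m with
  | zero =>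
    intro H s w _ hw hG
    refine ⟨fun _ => H, fun _ => Subset.rfl, fun i j hij => (hij (Subsingleton.elim i j)).elim,
      fun _ h => hG (h.mono Subset.rfl (by simpa using hw))⟩
  | succ m ih =>
    intro H s w hs hw hG
    have hp : 1 ≤ 114 ^ m * s := Nat.one_le_iff_ne_zero.2 (by positivity)
    obtain ⟨A, B, hA, hB, hAB, h1, h2⟩ := split_in (s := 114 ^ m * s) hp
      (by rw [← mul_assoc, ← pow_succ']; exact hw) hG
    obtain ⟨S1, a1, b1, c1⟩ := ih hs le_rfl h1
    obtain ⟨S2, a2, b2, c2⟩ := ih hs le_rfl h2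
    refine ⟨fun f => if f 0 = true then S1 (Fin.tail f) else S2 (Fin.tail f), ?_, ?_, ?_⟩
    · intro f
      dsimp only
      split_ifs
      · exact (a1 _).trans hA
      · exact (a2 _).trans hB
    · intro f g hfg
      have ht : f 0 = g 0 → Fin.tail f ≠ Fin.tail g := by
        intro h0 h
        apply hfg
        rw [← Fin.cons_self_tail f, ← Fin.cons_self_tail g, h0, h]
      dsimp only
      split_ifs with hf hg hg
      · exact b1 _ _ (ht (hf.trans hg.symm))
      · exact hAB.mono (a1 _) (a2 _)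
      · exact hAB.symm.mono (a2 _) (a1 _)
      · refine b2 _ _ (ht ?_)
        rw [Bool.not_eq_true] at hf hg
        exact hf.trans hg.symm
    · intro f
      dsimp only
      split_ifs
      · exact c1 _
      · exact c2 _

/-- splitting into parts indexed by `ι`, `|ι| ≤ 2 ^ m` -/
theorem split_many {ι : Type} [Fintype ι] (m : ℕ) (hm : Fintype.card ι ≤ 2 ^ m) {H : Finset V}
    {s w : ℕ} (hs : 1 ≤ s) (hw : 114 ^ m * s ≤ w) (hG : ¬ Bw G H w) :
    ∃ S : ι → Finset V, (∀ i, S i ⊆ H) ∧ (∀ i j, i ≠ j → Disjoint (S i) (S j)) ∧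
      ∀ i, ¬ Bw G (S i) s := by
  obtain ⟨S, h1, h2, h3⟩ := split_pow m hs hw hG
  obtain ⟨e⟩ : Nonempty (ι ↪ (Fin m → Bool)) :=
    Function.Embedding.nonempty_of_card_le (by simpa using hm)
  exact ⟨fun i => S (e i), fun i => h1 _, fun i j hij => h2 _ _ (fun h => hij (e.injective h)),
    fun i => h3 _⟩

lemma pow_clog_le (k : ℕ) (hk : 1 ≤ k) : 114 ^ Nat.clog 2 k ≤ 114 * k ^ 7 := by
  rcases Nat.lt_or_ge 1 k with h | h
  · have h1 : 0 < Nat.clog 2 k := Nat.clog_pos (by norm_num) h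
    obtain ⟨m, hm⟩ : ∃ m, Nat.clog 2 k = m + 1 := ⟨Nat.clog 2 k - 1, by omega⟩
    have h2 : 2 ^ m < k := by
      have := Nat.pow_pred_clog_lt_self (b := 2) (by norm_num) h
      rw [hm] at this
      simpa using this
    rw [hm, pow_succ']
    apply Nat.mul_le_mul_left
    calc 114 ^ m ≤ 128 ^ m := Nat.pow_le_pow_left (by norm_num) m
      _ = (2 ^ m) ^ 7 := by rw [show (128 : ℕ) = 2 ^ 7 by norm_num, ← pow_mul, ← pow_mul, mul_comm]
      _ ≤ k ^ 7 := Nat.pow_le_pow_left h2.le 7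
  · have : k = 1 := by omega
    subst this
    simp

end Pool.Agent.H362SP
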