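import Mathlib
import Pool.Agent.H362SP.Many

/-!
Partition of a connected graph into connected parts of large treewidth.
-/

set_option autoImplicit false
set_option linter.unusedSectionVars false

namespace Pool.Agent.H362SP

open SimpleGraph Finset Pool.Agent.W126.Split

variable {V : Type} [Fintype V] [DecidableEq V] {G : SimpleGraph V}

/-- a connected set together with a neighbour of one of its vertices is connected -/
lemma conn_insert {K : Finset V} (hK : Conn G K) {x y : V} (hx : x ∈ K) (hxy : G.Adj x y) :
    Conn G (insert y K) := by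
  have key : ∀ u ∈ K, ∃ p : G.Walk u y, ∀ z ∈ p.support, z ∈ insert y K := by
    intro u hu
    obtain ⟨p, hp⟩ := hK u hu x hx
    refine ⟨p.append (Walk.cons hxy Walk.nil), ?_⟩
    intro z hz
    rw [Walk.mem_support_append_iff] at hz
    rcases hz with hz | hz
    · exact mem_insert_of_mem (hp z hz)
    · simp only [Walk.support_cons, Walk.support_nil, List.mem_cons, List.not_mem_nil,
        or_false] at hz
      rcases hz with rfl | rfl
      · exact mem_insert_of_mem hx
      · exact mem_insert_self _ _
  intro u hu v hv
  rcases mem_insert.1 hu with rfl | hu'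
  · rcases mem_insert.1 hv with rfl | hv'
    · exact ⟨Walk.nil, fun z hz => by
        rw [Walk.support_nil, List.mem_singleton] at hz
        rw [hz]; exact hu⟩
    · obtain ⟨p, hp⟩ := key v hv'
      exact ⟨p.reverse, fun z hz => hp z (by
        rwa [Walk.support_reverse, List.mem_reverse] at hz)⟩
  · rcases mem_insert.1 hv with rfl | hv'
    · exact key u hu'
    · obtain ⟨p, hp⟩ := hK u hu' v hv'
      exact ⟨p, fun z hz => mem_insert_of_mem (hp z hz)⟩

/-- disjoint nonempty connected sets of a connected graph extend to a partition into connected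
sets -/
theorem extend {ι : Type} [Fintype ι] [DecidableEq ι] [Nonempty ι] (hG : G.Connected) (n : ℕ) :
    ∀ K : ι → Finset V, (∀ i, (K i).Nonempty) → (∀ i, Conn G (K i)) →
      (∀ i j, i ≠ j → Disjoint (K i) (K j)) → (univ \ univ.biUnion K).card = n →
      ∃ L : ι → Finset V, (∀ i, K i ⊆ L i) ∧ (∀ i, Conn G (L i)) ∧
        (∀ i j, i ≠ j → Disjoint (L i) (L j)) ∧ ∀ v, ∃ i, v ∈ L i := by
  induction n with
  | zero =>
    intro K hne hC hd h0
    refine ⟨K, fun _ => Subset.rfl, hC, hd, fun v => ?_⟩
    by_contra hv
    have h1 : v ∈ univ \ univ.biUnion K := by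
      rw [mem_sdiff, mem_biUnion]
      exact ⟨mem_univ _, fun ⟨i, _, hi⟩ => hv ⟨i, hi⟩⟩
    rw [card_eq_zero.1 h0] at h1
    exact absurd h1 (notMem_empty v)
  | succ n ih =>
    intro K hne hC hd h0
    obtain ⟨v, hv⟩ := card_pos.1 (by omega : 0 < (univ \ univ.biUnion K).card)
    obtain ⟨i0⟩ := ‹Nonempty ι›
    obtain ⟨u, hu⟩ := hne i0
    obtain ⟨p⟩ := hG.preconnected u v
    obtain ⟨d, -, hd1, hd2⟩ := p.exists_boundary_dart ((univ.biUnion K : Finset V) : Set V)
      (by rw [mem_coe, mem_biUnion]; exact ⟨i0, mem_univ _, hu⟩)
      (by rw [mem_coe]; exact (mem_sdiff.1 hv).2)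
    rw [mem_coe, mem_biUnion] at hd1
    rw [mem_coe, mem_biUnion] at hd2
    obtain ⟨i, -, hi⟩ := hd1
    have hy : ∀ j, d.snd ∉ K j := fun j hj => hd2 ⟨j, mem_univ _, hj⟩
    have hcase : ∀ j, Function.update K i (insert d.snd (K i)) j =
        if j = i then insert d.snd (K i) else K j := fun j => by
      rw [Function.update_apply]
    have hmono : ∀ j, K j ⊆ Function.update K i (insert d.snd (K i)) j := by
      intro j
      rw [hcase]
      split_ifs with h
      · rw [h]; exact subset_insert _ _
      · exact Subset.rfl
    obtain ⟨L, h1, h2, h3, h4⟩ := ih (Function.update K i (insert d.snd (K i)))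
      (fun j => (hne j).mono (hmono j))
      (by
        intro j
        rw [hcase]
        split_ifs with h
        · exact conn_insert (hC i) hi d.adj
        · exact hC j)
      (by
        intro j k hjk
        rw [hcase, hcase]
        split_ifs with h h' h'
        · exact absurd (h.trans h'.symm) hjk
        · rw [disjoint_insert_left]
          exact ⟨hy k, hd i k (fun h'' => h' h''.symm)⟩
        · rw [disjoint_insert_right]
          exact ⟨hy j, hd j i h⟩
        · exact hd j k hjk)
      (by
        have e : univ \ univ.biUnion K =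
            insert d.snd (univ \ univ.biUnion (Function.update K i (insert d.snd (K i)))) := by
          ext z
          simp only [mem_sdiff, mem_univ, true_and, mem_biUnion, mem_insert, not_exists, hcase]
          constructor
          · intro h
            by_cases hz : z = d.snd
            · exact Or.inl hz
            · refine Or.inr fun j => ?_
              split_ifs with h'
              · rw [mem_insert, not_or]
                exact ⟨hz, h i⟩
              · exact h j
          · rintro (rfl | h)
            · exact hy
            · intro j hj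
              have := h j
              split_ifs at this with h'
              · subst h'
                exact this (mem_insert_of_mem hj)
              · exact this hj
        have e2 : d.snd ∉ univ \ univ.biUnion (Function.update K i (insert d.snd (K i))) := by
          rw [mem_sdiff, not_and_or]
          right
          rw [not_not, mem_biUnion]
          refine ⟨i, mem_univ _, ?_⟩
          rw [hcase, if_pos rfl]
          exact mem_insert_self _ _
        rw [e, card_insert_of_notMem e2] at h0
        omega)
    exact ⟨L, fun j => (hmono j).trans (h1 j), h2, h3, h4⟩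

lemma nonempty_of_not_bw {S : Finset V} {s : ℕ} (h : ¬ Bw G S s) : S.Nonempty := by
  rw [nonempty_iff_ne_empty]
  rintro rfl
  exact h ((bw_card ∅).mono Subset.rfl (by simp))

/-- partition into connected parts -/
theorem split_conn {ι : Type} [Fintype ι] [DecidableEq ι] [Nonempty ι] (hG : G.Connected) (m : ℕ)
    (hm : Fintype.card ι ≤ 2 ^ m) {s w : ℕ} (hs : 1 ≤ s) (hw : 114 ^ m * s ≤ w)
    (hB : ¬ Bw G univ w) :
    ∃ c : V → ι, ∀ i, Conn G (univ.filter (fun v => c v = i)) ∧
      ¬ Bw G (univ.filter (fun v => c v = i)) s := by
  classical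
  obtain ⟨S, -, h2, h3⟩ := split_many (ι := ι) m hm hs hw hB
  choose K hK1 hK2 hK3 hK4 using fun i => exists_comp s (S i) (h3 i)
  obtain ⟨L, a1, a2, a3, a4⟩ := extend hG _ K (fun i => nonempty_of_not_bw (hK4 i)) hK2
    (fun i j hij => (h2 i j hij).mono (hK1 i) (hK1 j)) rfl
  choose c hc using a4
  have e : ∀ i, univ.filter (fun v => c v = i) = L i := by
    intro i
    ext v
    rw [mem_filter]
    constructor
    · rintro ⟨-, rfl⟩
      exact hc v
    · intro hv
      refine ⟨mem_univ _, ?_⟩
      by_contra hne
      exact (Finset.disjoint_left.1 (a3 _ _ hne)) (hc v) hv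
  refine ⟨c, fun i => ?_⟩
  rw [e i]
  exact ⟨a2 i, fun h => hK4 i (h.mono (a1 i) le_rfl)⟩

/-- a nonempty connected set induces a connected graph -/
lemma induce_connected {A : Set V} {S : Finset V} (hSA : (S : Set V) = A) (h : Conn G S)
    (hne : S.Nonempty) : (G.induce A).Connected := by
  obtain ⟨x, hx⟩ := hne
  have hmem : ∀ v, v ∈ S ↔ v ∈ A := fun v => by rw [← hSA, mem_coe]
  have : Nonempty A := ⟨⟨x, (hmem x).1 hx⟩⟩
  refine SimpleGraph.Connected.mk ?_
  rintro ⟨u, hu⟩ ⟨v, hv⟩
  obtain ⟨p, hp⟩ := h u ((hmem u).2 hu) v ((hmem v).2 hv)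
  exact ⟨p.induce A (fun z hz => (hmem z).1 (hp z hz))⟩

end Pool.Agent.H362SP
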